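import Pool.Agent.H16.Avoid2

namespace Pool.Agent.Results.MP_f1492e_co.Height

/-- every vertex of `U` has at least `k` out-neighbours along the arc relation `B`. -/
def MinOut {V : Type} (U : Set V) (B : V → V → Prop) (k : ℕ) : Prop :=
  ∀ v ∈ U, k ≤ {w | B v w}.ncard

/-- `(U, B)` is a subdigraph of the digraph with arc relation `A`: a nonempty vertex set and a
subset of the arcs between its vertices. -/
def IsSub {V : Type} (A : V → V → Prop) (U : Set V) (B : V → V → Prop) : Prop :=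
  U.Nonempty ∧ ∀ u v, B u v → A u v ∧ u ∈ U ∧ v ∈ U

/-- the digraph `(U, B)` contains the digraph `F`. -/
def Contains {V W : Type} (U : Set V) (B : V → V → Prop) (F : W → W → Prop) : Prop :=
  ∃ f : W → V, Function.Injective f ∧ (∀ w, f w ∈ U) ∧ ∀ a b, F a b → B (f a) (f b)

/-- `F` is avoidable. -/
def Avoidable {W : Type} (F : W → W → Prop) : Prop :=
  ∃ dF : ℕ → ℕ, ∀ (k : ℕ) (V : Type) [Finite V] [Nonempty V] (A : V → V → Prop),
    (∀ v, ¬ A v v) → MinOut Set.univ A (dF k) →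
      ∃ (U : Set V) (B : V → V → Prop), IsSub A U B ∧ MinOut U B k ∧ ¬ Contains U B F

theorem result (W : Type) [Finite W] (F : W → W → Prop) (ht : W → ℤ)
    (hht : ∀ u v, F u v → ht v = ht u + 1) : ¬ Avoidable F := by
  classical
  rintro ⟨dF, hd⟩
  have : Fintype W := Fintype.ofFinite W
  obtain ⟨M, hM⟩ := (Set.finite_range ht).bddAbove
  obtain ⟨N, hN⟩ := (Set.finite_range (fun w => (M - ht w).toNat)).bddAbove
  obtain ⟨e⟩ : Nonempty (W ↪ Fin (Fintype.card W + 2)) :=
    Function.Embedding.nonempty_of_card_le (by simp)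
  set k := Fintype.card W + 2
  set d := dF k
  have hch : ∀ Z : Finset (H16.Avoid.Col d (2 ^ (d * d) * d) (N + 1)),
      ∃ S, Z.card < d → H16.Avoid.Chain Z S := by
    intro Z
    by_cases hZ : Z.card < d
    · obtain ⟨S, hS⟩ := H16.Avoid.exists_chain le_rfl Z hZ.le
      exact ⟨S, fun _ => hS⟩
    · exact ⟨fun _ => H16.Avoid.T.root, fun h => absurd h hZ⟩
  choose S hS using hch
  have : Nonempty (H16.Avoid.V d (2 ^ (d * d) * d) (N + 1)) := ⟨Sum.inr ∅⟩
  obtain ⟨U, B, ⟨hne, hsub⟩, hdeg, hF⟩ := hd k _ (H16.Avoid.A S)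
    (H16.Avoid.irrefl (Nat.succ_pos N) S hS) (fun v _ => H16.Avoid.A_deg S hS v)
  refine hF (H16.Avoid.main (by omega) hS hne hdeg hsub F e (fun w => (M - ht w).toNat)
    (fun w => Nat.succ_le_succ (hN ⟨w, rfl⟩)) (fun a b hab => ?_))
  have h1 := hht a b hab
  have h2 : ht b ≤ M := hM ⟨b, rfl⟩
  omega

end Pool.Agent.Results.MP_f1492e_co.Height
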